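import Mathlib

/-!
# Free topological vector spaces and the levels `sp_n(X)`

Definitions used for problem `MP_24cde2_gt`.
-/

set_option autoImplicit false

universe u

namespace Pool.Agent.Helper4FreeTVS

/-- `(V, i)` is the free (Hausdorff, real) topological vector space over the space `X`:
`V` is a Hausdorff real topological vector space, `i : X → V` is continuous, and every continuous
map `f` of `X` into a Hausdorff real topological vector space `E` is `g ∘ i` for a unique
continuous linear map `g : V → E`. -/
structure IsFreeTVS (X : Type u) [TopologicalSpace X] (V : Type u) [AddCommGroup V] [Module ℝ V]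
    [TopologicalSpace V] (i : X → V) : Prop where
  isTopologicalAddGroup : IsTopologicalAddGroup V
  continuousSMul : ContinuousSMul ℝ V
  t2 : T2Space V
  continuous_i : Continuous i
  exists_unique_lift : ∀ (E : Type u) [AddCommGroup E] [Module ℝ E] [TopologicalSpace E]
    [IsTopologicalAddGroup E] [ContinuousSMul ℝ E] [T2Space E] (f : X → E), Continuous f →
      ∃! g : V →L[ℝ] E, ∀ x, g (i x) = f x

/-- The level `sp_n(X) = {λ₁ x₁ + ⋯ + λₙ xₙ : λⱼ ∈ [-n, n], xⱼ ∈ X}` of `V(X)`, where points of
`X` are identified with their images under `i : X → V(X)`. -/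
def sp {X : Type*} {V : Type*} [AddCommGroup V] [Module ℝ V] (i : X → V) (n : ℕ) : Set V :=
  {v | ∃ (c : Fin n → ℝ) (x : Fin n → X), (∀ j, c j ∈ Set.Icc (-(n : ℝ)) (n : ℝ)) ∧
    v = ∑ j, c j • i (x j)}

end Pool.Agent.Helper4FreeTVS
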