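import Mathlib

/-!
# Products of `k_ω`-structures, and the `k_ω`-modification of a vector topology
-/

set_option autoImplicit false

universe u

open Topology Set

namespace Pool.Agent.Helper4FreeTVS

variable {F P : Type*} [TopologicalSpace F] [TopologicalSpace P]

/-- `U` is relatively open in each `A n`. -/
def RelOpen (A : ℕ → Set F) (U : Set F) : Prop :=
  ∀ n, ∃ O : Set F, IsOpen O ∧ U ∩ A n = O ∩ A n

/-- one step of the construction -/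
theorem step [T2Space F] [T2Space P] {A V : Set F} {B W : Set P} {O : Set (F × P)}
    (hA : IsCompact A) (hB : IsCompact B) (hV : IsCompact V) (hW : IsCompact W)
    (hVA : V ⊆ A) (hWB : W ⊆ B) (hVW : V ×ˢ W ⊆ O)
    (hO : ∃ G : Set (F × P), IsOpen G ∧ O ∩ (A ×ˢ B) = G ∩ (A ×ˢ B)) :
    ∃ V' : Set F, ∃ W' : Set P, IsCompact V' ∧ IsCompact W' ∧ V' ⊆ A ∧ W' ⊆ B ∧ V' ×ˢ W' ⊆ O ∧
      (∃ G : Set F, IsOpen G ∧ V ⊆ G ∧ G ∩ A ⊆ V') ∧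
      (∃ H : Set P, IsOpen H ∧ W ⊆ H ∧ H ∩ B ⊆ W') := by
  obtain ⟨G, hG, hGO⟩ := hO
  have hVWG : V ×ˢ W ⊆ G := by
    intro p hp
    have : p ∈ O ∩ (A ×ˢ B) := ⟨hVW hp, hVA hp.1, hWB hp.2⟩
    rw [hGO] at this
    exact this.1
  obtain ⟨u, v, hu, hv, hVu, hWv, huv⟩ := generalized_tube_lemma hV hW hG hVWG
  obtain ⟨G1, G2, hG1, hG2, hVG1, hAG2, hd⟩ :=
    SeparatedNhds.of_isCompact_isCompact hV (hA.diff hu)
      (Set.disjoint_left.2 fun x hx hx' => hx'.2 (hVu hx))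
  obtain ⟨H1, H2, hH1, hH2, hWH1, hBH2, hd'⟩ :=
    SeparatedNhds.of_isCompact_isCompact hW (hB.diff hv)
      (Set.disjoint_left.2 fun x hx hx' => hx'.2 (hWv hx))
  refine ⟨A \ G2, B \ H2, hA.diff hG2, hB.diff hH2, diff_subset, diff_subset, ?_,
    ⟨G1, hG1, hVG1, ?_⟩, ⟨H1, hH1, hWH1, ?_⟩⟩
  · rintro ⟨x, y⟩ ⟨⟨hxA, hx2⟩, ⟨hyB, hy2⟩⟩
    have hxu : x ∈ u := by
      by_contra h
      exact hx2 (hAG2 ⟨hxA, h⟩)
    have hyv : y ∈ v := by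
      by_contra h
      exact hy2 (hBH2 ⟨hyB, h⟩)
    have : (x, y) ∈ G ∩ (A ×ˢ B) := ⟨huv ⟨hxu, hyv⟩, hxA, hyB⟩
    rw [← hGO] at this
    exact this.1
  · rintro x ⟨hx1, hxA⟩
    exact ⟨hxA, fun h => Set.disjoint_left.1 hd hx1 h⟩
  · rintro x ⟨hx1, hxA⟩
    exact ⟨hxA, fun h => Set.disjoint_left.1 hd' hx1 h⟩

/-- The union of the sets built by the construction is open. -/
theorem isOpen_iUnion_of_chain {A : ℕ → Set F} (hAm : Monotone A) (n₀ : ℕ)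
    (cA : ∀ U : Set F, RelOpen A U → IsOpen U) (V : ℕ → Set F)
    (hVA : ∀ n, V n ⊆ A (n + n₀))
    (hV : ∀ n, ∃ G : Set F, IsOpen G ∧ V n ⊆ G ∧ G ∩ A (n + 1 + n₀) ⊆ V (n + 1)) :
    Monotone V ∧ IsOpen (⋃ n, V n) := by
  choose G hG hVG hGV using hV
  have hmono : Monotone V := by
    refine monotone_nat_of_le_succ fun n x hx => hGV n ⟨hVG n hx, ?_⟩
    exact hAm (by omega) (hVA n hx)
  refine ⟨hmono, cA _ fun n => ⟨⋃ m ∈ {m | n ≤ m}, G m, ?_, ?_⟩⟩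
  · exact isOpen_biUnion fun m _ => hG m
  · ext x
    simp only [mem_inter_iff, mem_iUnion, mem_setOf_eq, exists_prop]
    constructor
    · rintro ⟨⟨m, hm⟩, hx⟩
      refine ⟨⟨max m n, le_max_right _ _, hVG _ (hmono (le_max_left _ _) hm)⟩, hx⟩
    · rintro ⟨⟨m, hnm, hm⟩, hx⟩
      refine ⟨⟨m + 1, hGV m ⟨hm, hAm (by omega) hx⟩⟩, hx⟩

/-- The product of two `k_ω`-structures is coherent. -/
theorem isOpen_prod_of_relOpen [T2Space F] [T2Space P] {A : ℕ → Set F} {B : ℕ → Set P}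
    (hA : ∀ n, IsCompact (A n)) (hB : ∀ n, IsCompact (B n)) (hAm : Monotone A) (hBm : Monotone B)
    (hAu : ∀ x, ∃ n, x ∈ A n) (hBu : ∀ x, ∃ n, x ∈ B n)
    (cA : ∀ U : Set F, RelOpen A U → IsOpen U) (cB : ∀ U : Set P, RelOpen B U → IsOpen U)
    {O : Set (F × P)} (hO : RelOpen (fun n => A n ×ˢ B n) O) : IsOpen O := by
  rw [isOpen_iff_mem_nhds]
  rintro ⟨a, b⟩ hab
  obtain ⟨n₁, hn₁⟩ := hAu a
  obtain ⟨n₂, hn₂⟩ := hBu b
  set n₀ := max n₁ n₂ with hn₀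
  have ha : a ∈ A n₀ := hAm (le_max_left _ _) hn₁
  have hb : b ∈ B n₀ := hBm (le_max_right _ _) hn₂
  let S : ℕ → Type _ := fun n => {p : Set F × Set P // IsCompact p.1 ∧ IsCompact p.2 ∧
    p.1 ⊆ A (n + n₀) ∧ p.2 ⊆ B (n + n₀) ∧ p.1 ×ˢ p.2 ⊆ O}
  have hstep : ∀ n (p : S n), ∃ q : S (n + 1),
      (∃ G : Set F, IsOpen G ∧ p.1.1 ⊆ G ∧ G ∩ A (n + 1 + n₀) ⊆ q.1.1) ∧
      (∃ H : Set P, IsOpen H ∧ p.1.2 ⊆ H ∧ H ∩ B (n + 1 + n₀) ⊆ q.1.2) := by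
    rintro n ⟨⟨V, W⟩, hV, hW, hVA, hWB, hVW⟩
    obtain ⟨V', W', h1, h2, h3, h4, h5, h6, h7⟩ := step (hA (n + 1 + n₀)) (hB (n + 1 + n₀)) hV hW
      (hVA.trans (hAm (by omega))) (hWB.trans (hBm (by omega))) hVW (hO (n + 1 + n₀))
    exact ⟨⟨(V', W'), h1, h2, h3, h4, h5⟩, h6, h7⟩
  choose nxt hnxt using hstep
  let p0 : S 0 := ⟨({a}, {b}), isCompact_singleton, isCompact_singleton,
    by simpa using ha, by simpa using hb, by simpa using hab⟩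
  let s : ∀ n, S n := fun n => Nat.rec p0 (fun n p => nxt n p) n
  have hs : ∀ n, s (n + 1) = nxt n (s n) := fun n => rfl
  obtain ⟨hm1, ho1⟩ := isOpen_iUnion_of_chain hAm n₀ cA (fun n => (s n).1.1)
    (fun n => (s n).2.2.2.1) (fun n => by rw [hs]; exact (hnxt n (s n)).1)
  obtain ⟨hm2, ho2⟩ := isOpen_iUnion_of_chain hBm n₀ cB (fun n => (s n).1.2)
    (fun n => (s n).2.2.2.2.1) (fun n => by rw [hs]; exact (hnxt n (s n)).2)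
  refine mem_nhds_iff.2 ⟨(⋃ n, (s n).1.1) ×ˢ (⋃ n, (s n).1.2), ?_, ho1.prod ho2, ?_⟩
  · rintro ⟨x, y⟩ ⟨hx, hy⟩
    obtain ⟨m, hm⟩ := mem_iUnion.1 hx
    obtain ⟨k, hk⟩ := mem_iUnion.1 hy
    exact (s (max m k)).2.2.2.2.2 ⟨hm1 (le_max_left _ _) hm, hm2 (le_max_right _ _) hk⟩
  · exact ⟨mem_iUnion.2 ⟨0, rfl⟩, mem_iUnion.2 ⟨0, rfl⟩⟩

/-- The topology coherent with the family `A`. -/
def kTop {E : Type*} (t : TopologicalSpace E) (A : ℕ → Set E) : TopologicalSpace E where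
  IsOpen U := RelOpen A U
  isOpen_univ n := ⟨univ, isOpen_univ, rfl⟩
  isOpen_inter U V hU hV n := by
    obtain ⟨O₁, h₁, e₁⟩ := hU n
    obtain ⟨O₂, h₂, e₂⟩ := hV n
    refine ⟨O₁ ∩ O₂, h₁.inter h₂, ?_⟩
    rw [inter_inter_distrib_right, e₁, e₂, ← inter_inter_distrib_right]
  isOpen_sUnion S hS n := by
    choose! O hO hOe using hS
    refine ⟨⋃ U ∈ S, O U n, isOpen_biUnion fun U hU => hO U hU n, ?_⟩
    ext x
    simp only [mem_inter_iff, mem_sUnion, mem_iUnion, exists_prop]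
    constructor
    · rintro ⟨⟨U, hU, hx⟩, hxA⟩
      have : x ∈ U ∩ A n := ⟨hx, hxA⟩
      rw [hOe U hU n] at this
      exact ⟨⟨U, hU, this.1⟩, hxA⟩
    · rintro ⟨⟨U, hU, hx⟩, hxA⟩
      have : x ∈ O U n ∩ A n := ⟨hx, hxA⟩
      rw [← hOe U hU n] at this
      exact ⟨⟨U, hU, this.1⟩, hxA⟩

end Pool.Agent.Helper4FreeTVS
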