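import Pool.Agent.Helper4_FreeTVS.KOmega

/-!
# The `k_ω`-modification of a vector topology is a vector topology
-/

set_option autoImplicit false

universe u

open Topology Set

namespace Pool.Agent.Helper4FreeTVS

/-- `E` with the topology coherent with `A`. -/
def KE (E : Type u) (_A : ℕ → Set E) : Type u := E

section

variable {E : Type u} (A : ℕ → Set E)

instance [AddCommGroup E] : AddCommGroup (KE E A) := inferInstanceAs (AddCommGroup E)

instance [AddCommGroup E] [Module ℝ E] : Module ℝ (KE E A) := inferInstanceAs (Module ℝ E)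

instance [t : TopologicalSpace E] : TopologicalSpace (KE E A) := kTop t A

/-- identity -/
def toKE : E → KE E A := fun x => x

/-- identity -/
def ofKE : KE E A → E := fun x => x

variable [t : TopologicalSpace E]

theorem isOpen_KE_iff {U : Set (KE E A)} :
    IsOpen U ↔ RelOpen A (toKE A ⁻¹' U) := Iff.rfl

theorem continuous_ofKE : Continuous (ofKE A) := by
  refine ⟨fun U hU => ?_⟩
  rw [isOpen_KE_iff]
  exact fun n => ⟨U, hU, rfl⟩

theorem continuousOn_toKE (n : ℕ) : ContinuousOn (toKE A) (A n) := by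
  rw [continuousOn_iff']
  intro U hU
  rw [isOpen_KE_iff] at hU
  exact hU n

instance [T2Space E] : T2Space (KE E A) :=
  T2Space.of_injective_continuous (f := ofKE A) (fun _ _ h => h) (continuous_ofKE A)

/-- the sets `A n` in the new space -/
def KA (n : ℕ) : Set (KE E A) := ofKE A ⁻¹' (A n)

theorem isCompact_KA (hA : ∀ n, IsCompact (A n)) (n : ℕ) : IsCompact (KA A n) := by
  have := (hA n).image_of_continuousOn (continuousOn_toKE A n)
  convert this using 1
  ext x
  simp only [mem_image]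
  constructor
  · intro hx
    exact ⟨x, hx, rfl⟩
  · rintro ⟨y, hy, rfl⟩
    exact hy

theorem isOpen_of_relOpen_KA (U : Set (KE E A)) (hU : RelOpen (KA A) U) : IsOpen U := by
  rw [isOpen_KE_iff]
  intro n
  obtain ⟨O, hO, h⟩ := hU n
  rw [isOpen_KE_iff] at hO
  obtain ⟨O', hO', h'⟩ := hO n
  refine ⟨O', hO', ?_⟩
  rw [← h']
  exact h

/-- continuity of a map out of the product of two coherent spaces -/
theorem continuous_of_continuousOn_prod {F P Y : Type*} [TopologicalSpace F] [TopologicalSpace P]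
    [TopologicalSpace Y] [T2Space F] [T2Space P] {A : ℕ → Set F} {B : ℕ → Set P}
    (hA : ∀ n, IsCompact (A n)) (hB : ∀ n, IsCompact (B n)) (hAm : Monotone A) (hBm : Monotone B)
    (hAu : ∀ x, ∃ n, x ∈ A n) (hBu : ∀ x, ∃ n, x ∈ B n)
    (cA : ∀ U : Set F, RelOpen A U → IsOpen U) (cB : ∀ U : Set P, RelOpen B U → IsOpen U)
    {f : F × P → Y} (hf : ∀ n, ContinuousOn f (A n ×ˢ B n)) : Continuous f := by
  refine ⟨fun U hU => isOpen_prod_of_relOpen hA hB hAm hBm hAu hBu cA cB fun n => ?_⟩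
  exact continuousOn_iff'.1 (hf n) U hU

theorem relOpen_Icc (U : Set ℝ) (hU : RelOpen (fun n : ℕ => Icc (-(n : ℝ)) n) U) : IsOpen U := by
  rw [isOpen_iff_mem_nhds]
  intro x hx
  obtain ⟨n, hn⟩ := exists_nat_gt |x|
  obtain ⟨O, hO, h⟩ := hU n
  rw [abs_lt] at hn
  have hxO : x ∈ O := by
    have : x ∈ U ∩ Icc (-(n : ℝ)) n := ⟨hx, hn.1.le, hn.2.le⟩
    rw [h] at this
    exact this.1
  filter_upwards [hO.mem_nhds hxO, Ioo_mem_nhds hn.1 hn.2] with y hy hy'
  have : y ∈ O ∩ Icc (-(n : ℝ)) n := ⟨hy, hy'.1.le, hy'.2.le⟩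
  rw [← h] at this
  exact this.1

variable [AddCommGroup E] [Module ℝ E] [IsTopologicalAddGroup E] [ContinuousSMul ℝ E] [T2Space E]

theorem continuousAdd_KE (hA : ∀ n, IsCompact (A n)) (hAm : Monotone A) (hAu : ∀ x, ∃ n, x ∈ A n)
    (hadd : ∀ n, ∃ m, ∀ x ∈ A n, ∀ y ∈ A n, x + y ∈ A m) : ContinuousAdd (KE E A) := by
  refine ⟨?_⟩
  refine continuous_of_continuousOn_prod (isCompact_KA A hA) (isCompact_KA A hA) hAm hAm hAu hAu
    (isOpen_of_relOpen_KA A) (isOpen_of_relOpen_KA A) fun n => ?_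
  obtain ⟨m, hm⟩ := hadd n
  have h1 : ContinuousOn (fun p : KE E A × KE E A => ofKE A p.1 + ofKE A p.2)
      (KA A n ×ˢ KA A n) := by
    refine Continuous.continuousOn ?_
    exact ((continuous_ofKE A).comp continuous_fst).add ((continuous_ofKE A).comp continuous_snd)
  exact (continuousOn_toKE A m).comp h1 fun p hp => hm _ hp.1 _ hp.2

theorem continuousSMul_KE (hA : ∀ n, IsCompact (A n)) (hAm : Monotone A) (hAu : ∀ x, ∃ n, x ∈ A n)
    (hsmul : ∀ n : ℕ, ∃ m, ∀ c ∈ Icc (-(n : ℝ)) n, ∀ y ∈ A n, c • y ∈ A m) :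
    ContinuousSMul ℝ (KE E A) := by
  refine ⟨?_⟩
  refine continuous_of_continuousOn_prod (A := fun n : ℕ => Icc (-(n : ℝ)) n)
    (fun n => isCompact_Icc) (isCompact_KA A hA) ?_ hAm ?_ hAu
    relOpen_Icc (isOpen_of_relOpen_KA A) fun n => ?_
  · intro n m hnm
    have : (n : ℝ) ≤ m := by exact_mod_cast hnm
    exact Icc_subset_Icc (by linarith) this
  · intro x
    obtain ⟨n, hn⟩ := exists_nat_gt |x|
    rw [abs_lt] at hn
    exact ⟨n, hn.1.le, hn.2.le⟩
  obtain ⟨m, hm⟩ := hsmul n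
  have h1 : ContinuousOn (fun p : ℝ × KE E A => p.1 • ofKE A p.2)
      (Icc (-(n : ℝ)) n ×ˢ KA A n) := by
    refine Continuous.continuousOn ?_
    exact continuous_fst.smul ((continuous_ofKE A).comp continuous_snd)
  exact (continuousOn_toKE A m).comp h1 fun p hp => hm _ hp.1 _ hp.2

theorem isTopologicalAddGroup_KE (hA : ∀ n, IsCompact (A n)) (hAm : Monotone A)
    (hAu : ∀ x, ∃ n, x ∈ A n)
    (hadd : ∀ n, ∃ m, ∀ x ∈ A n, ∀ y ∈ A n, x + y ∈ A m)
    (hsmul : ∀ n : ℕ, ∃ m, ∀ c ∈ Icc (-(n : ℝ)) n, ∀ y ∈ A n, c • y ∈ A m) :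
    IsTopologicalAddGroup (KE E A) := by
  have h1 := continuousAdd_KE A hA hAm hAu hadd
  have h2 := continuousSMul_KE A hA hAm hAu hsmul
  refine { continuous_neg := ?_ }
  have : (fun x : KE E A => -x) = fun x => (-1 : ℝ) • x := by
    ext x
    simp
  rw [this]
  exact continuous_const.smul continuous_id

end

end Pool.Agent.Helper4FreeTVS
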