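import Pool.Agent.Helper4_FreeTVS.Defs

/-!
# The concrete model of the free topological vector space
-/

set_option autoImplicit false

universe u

open Topology

namespace Pool.Agent.Helper4FreeTVS

/-- The underlying vector space of the concrete model. -/
def FV (X : Type u) : Type u := X →₀ ℝ

noncomputable instance (X : Type u) : AddCommGroup (FV X) :=
  inferInstanceAs (AddCommGroup (X →₀ ℝ))

noncomputable instance (X : Type u) : Module ℝ (FV X) :=
  inferInstanceAs (Module ℝ (X →₀ ℝ))

/-- the canonical map -/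
noncomputable def ι {X : Type u} (x : X) : FV X := (Finsupp.single x 1 : X →₀ ℝ)

/-- the tautological identification with finitely supported functions -/
noncomputable def tf {X : Type u} : FV X ≃ₗ[ℝ] (X →₀ ℝ) := LinearEquiv.refl ℝ (X →₀ ℝ)

@[simp] theorem tf_ι {X : Type u} (x : X) : tf (ι x) = Finsupp.single x 1 := rfl

/-- the vector topologies making `ι` continuous -/
def goodTop (X : Type u) [TopologicalSpace X] : Set (TopologicalSpace (FV X)) :=
  {t | @IsTopologicalAddGroup (FV X) t _ ∧ @ContinuousSMul ℝ (FV X) _ _ t ∧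
    @Continuous X (FV X) _ t ι}

instance instTop (X : Type u) [TopologicalSpace X] : TopologicalSpace (FV X) :=
  sInf (goodTop X)

instance (X : Type u) [TopologicalSpace X] : IsTopologicalAddGroup (FV X) :=
  topologicalAddGroup_sInf fun _ h => h.1

instance (X : Type u) [TopologicalSpace X] : ContinuousSMul ℝ (FV X) :=
  continuousSMul_sInf fun _ h => h.2.1

theorem continuous_ι {X : Type u} [TopologicalSpace X] : Continuous (ι : X → FV X) :=
  continuous_sInf_rng.2 fun _ h => h.2.2

/-- The linear extension. -/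
noncomputable def ext {X : Type u} {E : Type*} [AddCommGroup E] [Module ℝ E] (f : X → E) :
    FV X →ₗ[ℝ] E :=
  (Finsupp.linearCombination ℝ f : (X →₀ ℝ) →ₗ[ℝ] E)

@[simp] theorem ext_ι {X : Type u} {E : Type*} [AddCommGroup E] [Module ℝ E] (f : X → E) (x : X) :
    ext f (ι x) = f x := by
  show Finsupp.linearCombination ℝ f (Finsupp.single x 1) = f x
  simp

theorem ext_apply {X : Type u} {E : Type*} [AddCommGroup E] [Module ℝ E] (f : X → E) (v : FV X) :
    ext f v = ∑ x ∈ (tf v).support, tf v x • f x := rfl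

theorem hom_ext {X : Type u} {E : Type*} [AddCommGroup E] [Module ℝ E] {g h : FV X →ₗ[ℝ] E}
    (H : ∀ x, g (ι x) = h (ι x)) : g = h := by
  refine Finsupp.lhom_ext' (φ := (g : (X →₀ ℝ) →ₗ[ℝ] E)) (ψ := h) fun x => ?_
  refine LinearMap.ext_ring ?_
  exact H x

theorem continuous_ext {X : Type u} [TopologicalSpace X] {E : Type*} [AddCommGroup E]
    [Module ℝ E] [TopologicalSpace E] [IsTopologicalAddGroup E] [ContinuousSMul ℝ E]
    {f : X → E} (hf : Continuous f) : Continuous (ext f) := by
  rw [continuous_iff_le_induced]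
  refine sInf_le ⟨topologicalAddGroup_induced (ext f), continuousSMul_induced (ext f), ?_⟩
  rw [continuous_induced_rng]
  convert hf using 1
  ext x
  simp

theorem exists_sep {X : Type u} [TopologicalSpace X] [TopologicalSpace.MetrizableSpace X]
    {v : FV X} (hv : v ≠ 0) : ∃ f : X → ℝ, Continuous f ∧ ext f v ≠ 0 := by
  classical
  let _ := TopologicalSpace.metrizableSpaceMetric X
  obtain ⟨x₀, hx₀⟩ : ∃ x, tf v x ≠ 0 := by
    by_contra h
    push Not at h
    exact hv (tf.injective (by rw [map_zero]; exact Finsupp.ext h))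
  let S : Finset X := (tf v).support.erase x₀
  refine ⟨fun y => ∏ s ∈ S, dist y s, by fun_prop, ?_⟩
  rw [ext_apply, Finset.sum_eq_single x₀]
  · simp only [smul_eq_mul]
    refine mul_ne_zero hx₀ (Finset.prod_ne_zero_iff.2 fun s hs => ?_)
    exact dist_ne_zero.2 (Finset.ne_of_mem_erase hs).symm
  · intro y hy hne
    have : y ∈ S := Finset.mem_erase.2 ⟨hne, hy⟩
    simp only [smul_eq_mul]
    rw [Finset.prod_eq_zero this (dist_self y), mul_zero]
  · intro h
    simp only [Finsupp.mem_support_iff, not_not] at h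
    exact absurd h hx₀

instance (X : Type u) [TopologicalSpace X] [TopologicalSpace.MetrizableSpace X] :
    T2Space (FV X) := by
  refine ⟨fun v w hvw => ?_⟩
  obtain ⟨f, hf, hne⟩ := exists_sep (sub_ne_zero.2 hvw)
  refine separated_by_continuous (continuous_ext hf) ?_
  rw [map_sub] at hne
  exact sub_ne_zero.1 hne

/-- The concrete model has the universal property. -/
theorem isFreeTVS_FV (X : Type u) [TopologicalSpace X] [TopologicalSpace.MetrizableSpace X] :
    IsFreeTVS X (FV X) ι where
  isTopologicalAddGroup := inferInstance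
  continuousSMul := inferInstance
  t2 := inferInstance
  continuous_i := continuous_ι
  exists_unique_lift E _ _ _ _ _ _ f hf := by
    refine ⟨⟨ext f, continuous_ext hf⟩, fun x => ext_ι f x, fun g hg => ?_⟩
    ext v
    have : (g : FV X →ₗ[ℝ] E) = ext f := hom_ext fun x => by
      rw [ext_ι]; exact hg x
    exact congrArg (fun h : FV X →ₗ[ℝ] E => h v) this

/-- Any free topological vector space is isomorphic to the model. -/
theorem exists_equiv {X : Type u} [TopologicalSpace X] [TopologicalSpace.MetrizableSpace X]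
    {V : Type u} [AddCommGroup V] [Module ℝ V] [TopologicalSpace V] {i : X → V}
    (h : IsFreeTVS X V i) : ∃ e : FV X ≃L[ℝ] V, ∀ x, e (ι x) = i x := by
  have := h.isTopologicalAddGroup
  have := h.continuousSMul
  have := h.t2
  obtain ⟨g, hg, -⟩ := (isFreeTVS_FV X).exists_unique_lift V i h.continuous_i
  obtain ⟨k, hk, -⟩ := h.exists_unique_lift (FV X) ι continuous_ι
  have h1 : k.comp g = ContinuousLinearMap.id ℝ (FV X) := by
    obtain ⟨w, -, hw⟩ := (isFreeTVS_FV X).exists_unique_lift (FV X) ι continuous_ι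
    rw [hw (k.comp g) (fun x => by simp [hg, hk]), hw (ContinuousLinearMap.id ℝ (FV X)) (by simp)]
  have h2 : g.comp k = ContinuousLinearMap.id ℝ V := by
    obtain ⟨w, -, hw⟩ := h.exists_unique_lift V i h.continuous_i
    rw [hw (g.comp k) (fun x => by simp [hg, hk]), hw (ContinuousLinearMap.id ℝ V) (by simp)]
  refine ⟨ContinuousLinearEquiv.equivOfInverse g k (fun v => ?_) (fun v => ?_), fun x => ?_⟩
  · exact congrArg (fun h : FV X →L[ℝ] FV X => h v) h1
  · exact congrArg (fun h : V →L[ℝ] V => h v) h2
  · exact hg x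

theorem image_sp {X : Type u} [TopologicalSpace X]
    {V : Type u} [AddCommGroup V] [Module ℝ V] [TopologicalSpace V] {i : X → V}
    (e : FV X ≃L[ℝ] V) (he : ∀ x, e (ι x) = i x) (n : ℕ) : e '' (sp (ι : X → FV X) n) = sp i n := by
  ext v
  constructor
  · rintro ⟨w, ⟨c, x, hc, rfl⟩, rfl⟩
    exact ⟨c, x, hc, by simp [he]⟩
  · rintro ⟨c, x, hc, rfl⟩
    exact ⟨∑ j, c j • ι (x j), ⟨c, x, hc, rfl⟩, by simp [he]⟩

theorem compactlyCoherent_of_homeo {A B : Type*}
    [TopologicalSpace A] [TopologicalSpace B] (e : A ≃ₜ B) (h : CompactlyCoherentSpace A) :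
    CompactlyCoherentSpace B := by
  refine CompactlyCoherentSpace.of_isClosed fun C hC => ?_
  rw [← e.isClosed_preimage]
  refine (CompactlyCoherentSpace.isClosed_iff _).2 fun K hK => ?_
  have := hC (e '' K) (hK.image e.continuous)
  have h2 : Continuous (fun x : K => (⟨e x, Set.mem_image_of_mem e x.2⟩ : (e '' K : Set B))) := by
    fun_prop
  exact this.preimage h2

theorem coherent_sp_iff {X : Type u} [TopologicalSpace X] [TopologicalSpace.MetrizableSpace X]
    {V : Type u} [AddCommGroup V] [Module ℝ V] [TopologicalSpace V] {i : X → V}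
    (h : IsFreeTVS X V i) (n : ℕ) :
    CompactlyCoherentSpace (sp i n) ↔ CompactlyCoherentSpace (sp (ι : X → FV X) n) := by
  obtain ⟨e, he⟩ := exists_equiv h
  have key : (sp (ι : X → FV X) n) ≃ₜ (sp i n) :=
    (e.toHomeomorph.image (sp (ι : X → FV X) n)).trans (Homeomorph.setCongr (image_sp e he n))
  exact ⟨compactlyCoherent_of_homeo key.symm, compactlyCoherent_of_homeo key⟩

end Pool.Agent.Helper4FreeTVS
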