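import Pool.Agent.Helper4_FreeTVS.Model

/-!
# If `sp_2(X)` is a `k`-space then `X` is locally compact and second countable
-/

set_option autoImplicit false

universe u

open Topology Set

namespace Pool.Agent.Helper4FreeTVS

/-- solution of a triangular system -/
noncomputable def triG (a : ℕ → ℕ → ℝ) : ℕ → ℝ
  | n => (n - ∑ k : Fin n, triG a k.1 * a n k.1) / a n n
termination_by n => n
decreasing_by exact k.2

theorem triG_spec (a : ℕ → ℕ → ℝ) {n : ℕ} (hn : a n n ≠ 0) :
    ∑ k ∈ Finset.range (n + 1), triG a k * a n k = n := by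
  rw [Finset.sum_range_succ, Finset.sum_range]
  conv_lhs =>
    enter [2]
    rw [triG]
  rw [div_mul_cancel₀ _ hn]
  ring

/-- Algebraic triangular lemma. -/
theorem finite_of_bounded {X : Type*} (B : Set (X →₀ ℝ)) (D : Set X)
    (h : ∀ g : X → ℝ, (∀ x, x ∉ D → g x = 0) →
      ∃ M : ℝ, ∀ v ∈ B, |∑ x ∈ v.support, v x * g x| ≤ M) :
    {d | d ∈ D ∧ ∃ v ∈ B, v d ≠ 0}.Finite := by
  classical
  by_contra hinf
  have hinf : {d | d ∈ D ∧ ∃ v ∈ B, v d ≠ 0}.Infinite := hinf
  obtain ⟨f, hf1, hf2⟩ := exists_seq_of_forall_finset_exists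
    (fun p : (X →₀ ℝ) × X => p.1 ∈ B ∧ p.2 ∈ D ∧ p.1 p.2 ≠ 0)
    (fun p q => q.2 ∉ p.1.support) (by
      intro s _
      obtain ⟨d, hd, hds⟩ := hinf.exists_notMem_finset (s.biUnion fun p => p.1.support)
      obtain ⟨hdD, v, hvB, hvd⟩ := hd
      refine ⟨(v, d), ⟨hvB, hdD, hvd⟩, fun p hp hmem => hds ?_⟩
      exact Finset.mem_biUnion.2 ⟨p, hp, hmem⟩)
  have hinj : Function.Injective fun n => (f n).2 := by
    intro m n hmn
    simp only at hmn
    rcases lt_trichotomy m n with hlt | heq | hlt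
    · exact absurd (Finsupp.mem_support_iff.2 (hf1 m).2.2) (hmn ▸ hf2 m n hlt)
    · exact heq
    · exact absurd (Finsupp.mem_support_iff.2 (hf1 n).2.2) (hmn ▸ hf2 n m hlt)
  set a : ℕ → ℕ → ℝ := fun n k => (f n).1 (f k).2 with ha
  set g : X → ℝ := Function.extend (fun n => (f n).2) (triG a) 0 with hg
  have hgf : ∀ n, g (f n).2 = triG a n := fun n => hinj.extend_apply _ _ n
  have hg0 : ∀ x, (¬ ∃ n, (f n).2 = x) → g x = 0 := fun x hx => by
    rw [hg, Function.extend_apply' _ _ _ hx]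
    rfl
  obtain ⟨M, hM⟩ := h g (fun x hx => hg0 x (by
    rintro ⟨n, rfl⟩
    exact hx (hf1 n).2.1))
  obtain ⟨n, hn⟩ := exists_nat_gt M
  have h1 := hM (f n).1 (hf1 n).1
  have h2 : ∑ x ∈ (f n).1.support, (f n).1 x * g x = n := by
    rw [← triG_spec a (n := n) (hf1 n).2.2]
    have : ∑ k ∈ Finset.range (n + 1), triG a k * a n k =
        ∑ x ∈ (Finset.range (n + 1)).image (fun n => (f n).2), (f n).1 x * g x := by
      rw [Finset.sum_image (fun _ _ _ _ hxy => hinj hxy)]
      refine Finset.sum_congr rfl fun k _ => ?_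
      rw [hgf, mul_comm]
    rw [this]
    set s := (f n).1.support
    set t := (Finset.range (n + 1)).image (fun n => (f n).2)
    have e1 : ∑ x ∈ s, (f n).1 x * g x = ∑ x ∈ s ∪ t, (f n).1 x * g x := by
      refine Finset.sum_subset Finset.subset_union_left fun x _ hx => ?_
      rw [Finsupp.notMem_support_iff.1 hx, zero_mul]
    have e2 : ∑ x ∈ t, (f n).1 x * g x = ∑ x ∈ s ∪ t, (f n).1 x * g x := by
      refine Finset.sum_subset Finset.subset_union_right fun x hx hxt => ?_
      rw [hg0 x, mul_zero]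
      rintro ⟨k, rfl⟩
      have hxs : (f k).2 ∈ s := by
        rcases Finset.mem_union.1 hx with h | h
        · exact h
        · exact absurd h hxt
      have hkn : n < k := by
        by_contra hle
        exact hxt (Finset.mem_image.2 ⟨k, Finset.mem_range.2 (by omega), rfl⟩)
      exact hf2 n k hkn hxs
    rw [e1, e2]
  rw [h2] at h1
  have := le_abs_self (n : ℝ)
  linarith

variable {X : Type u} [TopologicalSpace X] [TopologicalSpace.MetrizableSpace X]

/-- `D` has no accumulation points. -/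
def NoAcc {X : Type u} [TopologicalSpace X] (D : Set X) : Prop := ∀ x, ∀ᶠ y in 𝓝[≠] x, y ∉ D

theorem NoAcc.subset {D D' : Set X} (h : NoAcc D) (hs : D' ⊆ D) : NoAcc D' := fun x =>
  (h x).mono fun _ hy hy' => hy (hs hy')

theorem NoAcc.isClosed {D : Set X} (h : NoAcc D) : IsClosed D := by
  rw [← isOpen_compl_iff, isOpen_iff_mem_nhds]
  intro x hx
  have := h x
  rw [eventually_nhdsWithin_iff] at this
  filter_upwards [this] with y hy
  by_cases hxy : y = x
  · rwa [hxy]
  · exact hy hxy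

/-- A function supported in a set without accumulation points extends from `D ∪ T`. -/
theorem exists_extension {D T : Set X} (hD : NoAcc D) (hT : IsClosed T) (hDT : Disjoint D T)
    (g : X → ℝ) (hg : ∀ x, x ∉ D → g x = 0) :
    ∃ f : X → ℝ, Continuous f ∧ ∀ x ∈ D ∪ T, f x = g x := by
  let _ := TopologicalSpace.metrizableSpaceMetric X
  have hcl : IsClosed (D ∪ T) := hD.isClosed.union hT
  have hcont : ContinuousOn g (D ∪ T) := by
    intro x hx
    rcases hx with hx | hx
    · have hxT : x ∉ T := Set.disjoint_left.1 hDT hx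
      have h1 : {x} ∈ 𝓝[D ∪ T] x := by
        rw [mem_nhdsWithin_iff_eventually]
        have h2 := hD x
        rw [eventually_nhdsWithin_iff] at h2
        filter_upwards [h2, hT.isOpen_compl.mem_nhds hxT] with y hy hyT hyDT
        by_contra hne
        rcases hyDT with h | h
        · exact hy hne h
        · exact hyT h
      have h2 : 𝓝[D ∪ T] x = pure x := by
        refine le_antisymm ?_ ?_
        · intro s hs
          have : {x} ⊆ s := by simpa using hs
          exact Filter.mem_of_superset h1 this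
        · exact pure_le_nhdsWithin (Or.inl hx)
      rw [ContinuousWithinAt, h2]
      exact tendsto_pure_nhds _ _
    · have hxD : x ∉ D := Set.disjoint_right.1 hDT hx
      have h1 : ∀ᶠ y in 𝓝[D ∪ T] x, g y = 0 := by
        have : Dᶜ ∈ 𝓝 x := hD.isClosed.isOpen_compl.mem_nhds hxD
        exact Filter.Eventually.filter_mono nhdsWithin_le_nhds
          (Filter.mem_of_superset this fun y hy => hg y hy)
      rw [ContinuousWithinAt, hg x hxD]
      exact (tendsto_const_nhds).congr' (h1.mono fun y hy => hy.symm)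
  obtain ⟨f, hf⟩ := ContinuousMap.exists_restrict_eq hcl
    ⟨(D ∪ T).restrict g, continuousOn_iff_continuous_restrict.1 hcont⟩
  refine ⟨f, f.continuous, fun x hx => ?_⟩
  exact congrArg (fun h : C(↥(D ∪ T), ℝ) => h ⟨x, hx⟩) hf

/-- Compact sets of `V(X)` have small support. -/
theorem finite_support {D T : Set X} (hD : NoAcc D) (hT : IsClosed T) (hDT : Disjoint D T)
    {K : Set (FV X)} (hK : IsCompact K) :
    {d | d ∈ D ∧ ∃ v ∈ K, (∀ x, tf v x ≠ 0 → x ∈ D ∪ T) ∧ tf v d ≠ 0}.Finite := by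
  have := finite_of_bounded (tf '' {v | v ∈ K ∧ ∀ x, tf v x ≠ 0 → x ∈ D ∪ T}) D (by
    intro g hg
    obtain ⟨f, hf, hfg⟩ := exists_extension hD hT hDT g hg
    obtain ⟨M, hM⟩ := (hK.image (continuous_ext hf)).isBounded.exists_norm_le
    refine ⟨M, ?_⟩
    rintro _ ⟨v, ⟨hvK, hv⟩, rfl⟩
    have h1 := hM (ext f v) (mem_image_of_mem _ hvK)
    rw [ext_apply, Real.norm_eq_abs] at h1
    refine le_trans (le_of_eq ?_) h1
    congr 1
    refine Finset.sum_congr rfl fun x hx => ?_
    rw [smul_eq_mul, hfg x (hv x (Finsupp.mem_support_iff.1 hx))])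
  refine this.subset ?_
  rintro d ⟨hd, v, hvK, hv, hvd⟩
  exact ⟨hd, tf v, ⟨v, ⟨hvK, hv⟩, rfl⟩, hvd⟩

/-- The basic contradiction. -/
theorem not_coherent {S C : Set (FV X)} (h0 : (0 : FV X) ∈ S) (hCS : C ⊆ S) (h0C : (0 : FV X) ∉ C)
    (hfin : ∀ K : Set (FV X), IsCompact K → (K ∩ C).Finite)
    (hcl : ∀ W ∈ 𝓝 (0 : FV X), (W ∩ C).Nonempty) : ¬ CompactlyCoherentSpace S := by
  intro h
  have h1 : IsClosed (Subtype.val ⁻¹' C : Set S) := by
    rw [CompactlyCoherentSpace.isClosed_iff]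
    intro K hK
    have h2 := hfin (Subtype.val '' K) (hK.image continuous_subtype_val)
    have h3 : ((fun x : K => (x.1.1 : FV X)) ⁻¹' (Subtype.val '' K ∩ C)).Finite :=
      h2.preimage (fun x _ y _ hxy => Subtype.ext (Subtype.ext hxy))
    refine (h3.subset ?_).isClosed
    intro x hx
    exact ⟨⟨x.1, x.2, rfl⟩, hx⟩
  have h2 : (⟨0, h0⟩ : S) ∈ closure (Subtype.val ⁻¹' C : Set S) := by
    rw [mem_closure_iff_nhds]
    intro t ht
    rw [nhds_subtype, Filter.mem_comap] at ht
    obtain ⟨W, hW, hWt⟩ := ht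
    obtain ⟨w, hwW, hwC⟩ := hcl W hW
    exact ⟨⟨w, hCS hwC⟩, hWt hwW, hwC⟩
  rw [h1.closure_eq] at h2
  exact h0C h2

theorem mem_sp_two {a b : ℝ} (ha : |a| ≤ 2) (hb : |b| ≤ 2) (x y : X) :
    a • (ι x : FV X) + b • ι y ∈ sp (ι : X → FV X) 2 := by
  refine ⟨![a, b], ![x, y], ?_, by simp [Fin.sum_univ_two]⟩
  intro j
  fin_cases j
  · simpa using abs_le.1 ha
  · simpa using abs_le.1 hb

theorem zero_mem_sp_two [Nonempty X] : (0 : FV X) ∈ sp (ι : X → FV X) 2 := by
  have := mem_sp_two (a := 0) (b := 0) (by simp) (by simp) (Classical.arbitrary X)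
    (Classical.arbitrary X)
  simpa using this

/-- small multiples of a point are small -/
theorem small_smul {W : Set (FV X)} (hW : W ∈ 𝓝 (0 : FV X)) (x : X) :
    ∃ δ > 0, ∀ t : ℝ, |t| < δ → t • (ι x : FV X) ∈ W := by
  have h1 : Continuous fun t : ℝ => t • (ι x : FV X) := by fun_prop
  have h2 : (fun t : ℝ => t • (ι x : FV X)) ⁻¹' W ∈ 𝓝 (0 : ℝ) := by
    refine h1.continuousAt.preimage_mem_nhds ?_
    simpa using hW
  obtain ⟨δ, hδ, h⟩ := Metric.mem_nhds_iff.1 h2
  exact ⟨δ, hδ, fun t ht => h (by simpa using ht)⟩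

end Pool.Agent.Helper4FreeTVS
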