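import Pool.Agent.Helper4_FreeTVS.Nec

/-!
# If `sp_2(X)` is a `k`-space then `X` is locally compact and second countable (continued)
-/

set_option autoImplicit false

universe u

open Topology Set Filter

namespace Pool.Agent.Helper4FreeTVS

/-- a closed non-compact set contains an infinite set without accumulation points -/
theorem exists_seq_noAcc {X : Type u} [MetricSpace X] {S : Set X} (hS : IsClosed S)
    (hnc : ¬ IsCompact S) (x₀ : X) :
    ∃ e : ℕ → X, Function.Injective e ∧ (∀ n, e n ∈ S ∧ e n ≠ x₀) ∧ NoAcc (range e) := by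
  rw [isCompact_iff_isSeqCompact, IsSeqCompact] at hnc
  push Not at hnc
  obtain ⟨u, huS, hu⟩ := hnc
  have hcl : ∀ x, ∃ W ∈ 𝓝 x, ∀ᶠ n in atTop, u n ∉ W := by
    intro x
    by_contra h
    push Not at h
    have hm : MapClusterPt x atTop u := by
      rw [mapClusterPt_iff_frequently]
      intro s hs
      have := h s hs
      simpa using this
    obtain ⟨φ, hφ, hlim⟩ := MapClusterPt.tendsto_subseq hm
    have hxS : x ∈ S := hS.mem_of_tendsto hlim (Eventually.of_forall fun n => huS _)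
    exact hu x hxS φ hφ hlim
  have hna : NoAcc (range u) := by
    intro x
    obtain ⟨W, hW, hN⟩ := hcl x
    obtain ⟨N, hN⟩ := eventually_atTop.1 hN
    have hfin : ((u '' {k | k < N}) \ {x}).Finite :=
      ((Set.finite_lt_nat N).image u).subset sdiff_subset
    rw [eventually_nhdsWithin_iff]
    have h2 : ((u '' {k | k < N}) \ {x})ᶜ ∈ 𝓝 x :=
      hfin.isClosed.isOpen_compl.mem_nhds (fun h => h.2 rfl)
    filter_upwards [hW, h2] with y hyW hy hyx
    rintro ⟨n, rfl⟩
    have hn : n < N := by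
      by_contra hle
      exact hN n (not_lt.1 hle) hyW
    exact hy ⟨⟨n, hn, rfl⟩, hyx⟩
  have hinf : (range u).Infinite := by
    intro hfin
    have h1 : ∀ᶠ n in atTop, ∀ a ∈ range u, u n ≠ a := by
      refine (eventually_all_finite hfin).2 fun a _ => ?_
      obtain ⟨W, hW, hN⟩ := hcl a
      filter_upwards [hN] with n hn h
      rw [h] at hn
      exact hn (mem_of_mem_nhds hW)
    obtain ⟨n, hn⟩ := h1.exists
    exact hn (u n) (mem_range_self n) rfl
  have hinf' : (range u \ {x₀}).Infinite := hinf.sdiff (finite_singleton x₀)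
  let e := hinf'.natEmbedding
  refine ⟨fun n => (e n).1, fun a b hab => e.injective (Subtype.ext hab), fun n => ?_, ?_⟩
  · obtain ⟨⟨k, hk⟩, hne⟩ := (e n).2
    refine ⟨?_, hne⟩
    show (e n).1 ∈ S
    rw [← hk]
    exact huS k
  · have hsub : (range fun n => (e n).1) ⊆ range u := by
      rintro _ ⟨n, rfl⟩
      exact (e n).2.1
    intro x
    exact (hna x).mono fun y hy hy' => hy (hsub hy')

variable {X : Type u} [TopologicalSpace X] [TopologicalSpace.MetrizableSpace X]

open Classical in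
theorem tf_two (a b : ℝ) (x y z : X) :
    tf (a • (ι x : FV X) + b • ι y) z = (if x = z then a else 0) + (if y = z then b else 0) := by
  rw [map_add, map_smul, map_smul, tf_ι, tf_ι]
  simp [Finsupp.single_apply]

/-- If `sp_2(X)` is a `k`-space then `X` is locally compact. -/
theorem locallyCompact_of_coherent (h : CompactlyCoherentSpace (sp (ι : X → FV X) 2)) :
    LocallyCompactSpace X := by
  classical
  let _ := TopologicalSpace.metrizableSpaceMetric X
  by_contra hlc
  have hw : ¬ WeaklyLocallyCompactSpace X := fun hw => hlc inferInstance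
  obtain ⟨x₀, hx₀⟩ : ∃ x : X, ∀ s : Set X, IsCompact s → s ∉ 𝓝 x := by
    by_contra hcon
    push Not at hcon
    exact hw ⟨fun x => hcon x⟩
  have hball : ∀ r > 0, ¬ IsCompact (Metric.closedBall x₀ r) := fun r hr hc =>
    hx₀ _ hc (Metric.closedBall_mem_nhds x₀ hr)
  obtain ⟨d₀, hd₀i, hd₀, hd₀n⟩ := exists_seq_noAcc Metric.isClosed_closedBall
    (hball 1 one_pos) x₀
  obtain ⟨r, hr, hrb⟩ : ∃ r > 0, ∀ n, d₀ n ∉ Metric.closedBall x₀ r := by
    have h1 := hd₀n x₀
    rw [eventually_nhdsWithin_iff] at h1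
    obtain ⟨ε, hε, hball⟩ := Metric.mem_nhds_iff.1 h1
    refine ⟨ε / 2, by positivity, fun n hn => ?_⟩
    have : d₀ n ∈ Metric.ball x₀ ε :=
      Metric.closedBall_subset_ball (by linarith) hn
    exact hball this (hd₀ n).2 (mem_range_self n)
  have hseq : ∀ k : ℕ, ∃ e : ℕ → X, Function.Injective e ∧
      (∀ n, e n ∈ Metric.closedBall x₀ (r / (k + 1)) ∧ e n ≠ x₀) ∧ NoAcc (range e) := fun k =>
    exists_seq_noAcc Metric.isClosed_closedBall (hball _ (by positivity)) x₀
  choose d hdi hd hdn using hseq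
  have hdT : ∀ k l, d k l ∈ Metric.closedBall x₀ r := fun k l => by
    refine Metric.closedBall_subset_closedBall ?_ (hd k l).1
    rw [div_le_iff₀ (by positivity)]
    nlinarith [Nat.cast_nonneg (α := ℝ) k]
  have hne : ∀ m k l, d₀ m ≠ d k l := fun m k l heq => hrb m (heq ▸ hdT k l)
  let c : ℕ × ℕ → FV X := fun p =>
    (1 / ((p.2 : ℝ) + 1)) • ι (d₀ p.1) + (1 / ((p.1 : ℝ) + 1)) • ι (d p.1 p.2)
  have hpos : ∀ k : ℕ, (0 : ℝ) < 1 / ((k : ℝ) + 1) := fun k => by positivity
  have hle : ∀ k : ℕ, |1 / ((k : ℝ) + 1)| ≤ 2 := fun k => by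
    rw [abs_of_pos (hpos k), div_le_iff₀ (by positivity)]
    nlinarith [Nat.cast_nonneg (α := ℝ) k]
  have hc0 : ∀ p, tf (c p) (d₀ p.1) ≠ 0 := fun p => by
    rw [tf_two, if_pos rfl, if_neg (hne _ _ _).symm, add_zero]
    exact (hpos _).ne'
  have hc1 : ∀ p, tf (c p) (d p.1 p.2) ≠ 0 := fun p => by
    rw [tf_two, if_neg (hne _ _ _), if_pos rfl, zero_add]
    exact (hpos _).ne'
  have hsupp : ∀ p x, tf (c p) x ≠ 0 → x = d₀ p.1 ∨ x = d p.1 p.2 := fun p x hx => by
    by_contra hcon
    push Not at hcon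
    rw [tf_two, if_neg hcon.1.symm, if_neg hcon.2.symm, add_zero] at hx
    exact hx rfl
  have hne' : Nonempty X := ⟨x₀⟩
  refine not_coherent (S := sp (ι : X → FV X) 2) (C := range c) zero_mem_sp_two ?_ ?_ ?_ ?_ h
  · rintro _ ⟨p, rfl⟩
    exact mem_sp_two (hle _) (hle _) _ _
  · rintro ⟨p, hp⟩
    refine hc0 p ?_
    rw [hp, map_zero]
    rfl
  · intro K hK
    have hk1 : {k : ℕ | ∃ l : ℕ, c (k, l) ∈ K}.Finite := by
      have := finite_support (D := range d₀) (T := Metric.closedBall x₀ r) hd₀n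
        Metric.isClosed_closedBall (by
          rw [Set.disjoint_left]
          rintro _ ⟨n, rfl⟩
          exact hrb n) hK
      refine (this.preimage (f := d₀) (hd₀i.injOn)).subset ?_
      rintro k ⟨l, hl⟩
      refine ⟨mem_range_self k, c (k, l), hl, fun x hx => ?_, hc0 (k, l)⟩
      rcases hsupp _ x hx with h | h
      · exact Or.inl ⟨k, h.symm⟩
      · exact Or.inr (h ▸ hdT _ _)
    have hk2 : ∀ k : ℕ, {l : ℕ | c (k, l) ∈ K}.Finite := by
      intro k
      have := finite_support (D := range (d k)) (T := {d₀ k}) (hdn k)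
        isClosed_singleton (by
          rw [Set.disjoint_left]
          rintro _ ⟨n, rfl⟩ hmem
          exact hne k k n hmem.symm) hK
      refine (this.preimage (f := d k) ((hdi k).injOn)).subset ?_
      rintro l hl
      refine ⟨mem_range_self l, c (k, l), hl, fun x hx => ?_, hc1 (k, l)⟩
      rcases hsupp _ x hx with h | h
      · exact Or.inr h
      · exact Or.inl ⟨l, h.symm⟩
    have hfin : {p : ℕ × ℕ | c p ∈ K}.Finite := by
      refine (hk1.biUnion (t := fun k => (fun l => (k, l)) '' {l : ℕ | c (k, l) ∈ K})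
        fun k _ => (hk2 k).image _).subset ?_
      rintro ⟨k, l⟩ hp
      refine mem_iUnion₂.2 ⟨k, ⟨l, hp⟩, ⟨l, hp, rfl⟩⟩
    refine (hfin.image c).subset ?_
    rintro _ ⟨hK', p, rfl⟩
    exact ⟨p, hK', rfl⟩
  · intro W hW
    have hadd : Tendsto (fun p : FV X × FV X => p.1 + p.2) (𝓝 (0, 0)) (𝓝 (0 : FV X)) := by
      have := (continuous_add (M := FV X)).tendsto (0, 0)
      simpa using this
    have hW' := hadd hW
    rw [mem_map, nhds_prod_eq, mem_prod_same_iff] at hW'
    obtain ⟨W₁, hW₁, hsub⟩ := hW'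
    have hcont : Continuous fun p : ℝ × X => p.1 • (ι p.2 : FV X) :=
      continuous_fst.smul (continuous_ι.comp continuous_snd)
    have h1 : (fun p : ℝ × X => p.1 • (ι p.2 : FV X)) ⁻¹' W₁ ∈ 𝓝 ((0 : ℝ), x₀) := by
      refine hcont.continuousAt.preimage_mem_nhds ?_
      simpa using hW₁
    rw [nhds_prod_eq, mem_prod_iff] at h1
    obtain ⟨A, hA, B, hB, hAB⟩ := h1
    have ht : Tendsto (fun k : ℕ => 1 / ((k : ℝ) + 1)) atTop (𝓝 0) :=
      tendsto_one_div_add_atTop_nhds_zero_nat
    have hd' : Tendsto (fun k : ℕ => d k 0) atTop (𝓝 x₀) := by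
      rw [tendsto_iff_dist_tendsto_zero]
      refine squeeze_zero (fun _ => dist_nonneg) (fun k => (hd k 0).1) ?_
      have := ht.const_mul r
      simpa [div_eq_mul_inv] using this
    obtain ⟨ε, hε, hεB⟩ := Metric.mem_nhds_iff.1 hB
    have htr : Tendsto (fun k : ℕ => r / ((k : ℝ) + 1)) atTop (𝓝 0) := by
      have := ht.const_mul r
      simpa [div_eq_mul_inv] using this
    obtain ⟨k, hkA, hkr⟩ := ((ht.eventually hA).and
      (htr.eventually (Iio_mem_nhds hε))).exists
    obtain ⟨δ, hδ, hsm⟩ := small_smul hW₁ (d₀ k)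
    obtain ⟨l, hl⟩ := (ht.eventually (Iio_mem_nhds hδ)).exists
    refine ⟨c (k, l), hsub (a := (_, _)) ⟨hsm _ ?_, ?_⟩, mem_range_self _⟩
    · rw [abs_of_pos (hpos l)]
      exact hl
    · refine hAB (a := (_, _)) ⟨hkA, hεB ?_⟩
      have : d k l ∈ Metric.closedBall x₀ (r / (k + 1)) := (hd k l).1
      exact lt_of_le_of_lt this hkr

/-- If `sp_2(X)` is a `k`-space then sets without accumulation points are countable. -/
theorem countable_of_coherent (h : CompactlyCoherentSpace (sp (ι : X → FV X) 2)) {D : Set X}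
    (hD : NoAcc D) : D.Countable := by
  classical
  by_contra hunc
  -- an uncountable set of reals injecting into `D`
  obtain ⟨R, ψ, hR, hψi, hψD⟩ : ∃ (R : Set ℝ) (ψ : ℝ → X), ¬ R.Countable ∧ InjOn ψ R ∧
      ∀ a ∈ R, ψ a ∈ D := by
    have hne : Nonempty D := by
      by_contra hne
      rw [not_nonempty_iff] at hne
      exact hunc (Set.countable_coe_iff.1 inferInstance)
    rcases le_total (Cardinal.lift.{u} (Cardinal.mk ℝ)) (Cardinal.lift.{0} (Cardinal.mk D))
      with hle | hle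
    · rw [Cardinal.lift_mk_le'] at hle
      obtain ⟨f⟩ := hle
      refine ⟨univ, fun a => (f a).1, ?_, fun a _ b _ hab => f.injective (Subtype.ext hab),
        fun a _ => (f a).2⟩
      exact Cardinal.not_countable_real
    · rw [Cardinal.lift_mk_le'] at hle
      obtain ⟨f⟩ := hle
      refine ⟨range f, fun a => (Function.invFun f a).1, ?_, ?_, fun a _ => (Function.invFun f a).2⟩
      · intro hcount
        have h1 : Countable (range f) := hcount.to_subtype
        have h2 : Countable D := (Equiv.ofInjective f f.injective).injective.countable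
        exact hunc (Set.countable_coe_iff.1 h2)
      · rintro _ ⟨a, rfl⟩ _ ⟨b, rfl⟩ hab
        simp only [Function.leftInverse_invFun f.injective _] at hab
        rw [Subtype.ext hab]
  let c : ℝ × ℝ → FV X := fun p =>
    (min 1 (abs (p.1 - p.2))) • ι (ψ p.1) + (min 1 (abs (p.1 - p.2))) • ι (ψ p.2)
  have hpos : ∀ p : ℝ × ℝ, p.1 ≠ p.2 → 0 < min 1 (abs (p.1 - p.2)) := fun p hp =>
    lt_min one_pos (abs_pos.2 (sub_ne_zero.2 hp))
  have hle : ∀ p : ℝ × ℝ, abs (min 1 (abs (p.1 - p.2))) ≤ 2 := fun p => by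
    rw [abs_of_nonneg (le_min zero_le_one (abs_nonneg _))]
    exact (min_le_left _ _).trans (by norm_num)
  set Q : Set (ℝ × ℝ) := {p | p.1 ∈ R ∧ p.2 ∈ R ∧ p.1 ≠ p.2} with hQ
  have hψne : ∀ p ∈ Q, ψ p.1 ≠ ψ p.2 := fun p hp heq => hp.2.2 (hψi hp.1 hp.2.1 heq)
  have hc0 : ∀ p ∈ Q, tf (c p) (ψ p.1) ≠ 0 := fun p hp => by
    rw [tf_two, if_pos rfl, if_neg (hψne p hp).symm, add_zero]
    exact (hpos p hp.2.2).ne'
  have hc1 : ∀ p ∈ Q, tf (c p) (ψ p.2) ≠ 0 := fun p hp => by
    rw [tf_two, if_pos rfl, if_neg (hψne p hp), zero_add]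
    exact (hpos p hp.2.2).ne'
  have hsupp : ∀ p x, tf (c p) x ≠ 0 → x = ψ p.1 ∨ x = ψ p.2 := fun p x hx => by
    by_contra hcon
    push Not at hcon
    rw [tf_two, if_neg hcon.1.symm, if_neg hcon.2.symm, add_zero] at hx
    exact hx rfl
  have hXne : Nonempty X := by
    by_contra hne
    rw [not_nonempty_iff] at hne
    exact hunc (Set.to_countable D)
  refine not_coherent (S := sp (ι : X → FV X) 2) (C := c '' Q) zero_mem_sp_two ?_ ?_ ?_ ?_ h
  · rintro _ ⟨p, -, rfl⟩
    exact mem_sp_two (hle _) (hle _) _ _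
  · rintro ⟨p, hpQ, hp⟩
    refine hc0 p hpQ ?_
    rw [hp, map_zero]
    rfl
  · intro K hK
    have hF := finite_support (D := D) (T := ∅) hD isClosed_empty (Set.disjoint_empty D) hK
    set F := {d | d ∈ D ∧ ∃ v ∈ K, (∀ x, tf v x ≠ 0 → x ∈ D ∪ ∅) ∧ tf v d ≠ 0} with hFdef
    have hFR : (R ∩ ψ ⁻¹' F).Finite := by
      refine Set.Finite.of_finite_image (f := ψ) (hF.subset ?_) (hψi.mono inter_subset_left)
      rintro _ ⟨a, ⟨-, ha⟩, rfl⟩
      exact ha
    have hfin : {p : ℝ × ℝ | p ∈ Q ∧ c p ∈ K}.Finite := by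
      refine (hFR.prod hFR).subset ?_
      rintro p ⟨hpQ, hpK⟩
      have hs : ∀ x, tf (c p) x ≠ 0 → x ∈ D ∪ ∅ := fun x hx => by
        rcases hsupp p x hx with h | h
        · exact Or.inl (h ▸ hψD _ hpQ.1)
        · exact Or.inl (h ▸ hψD _ hpQ.2.1)
      exact ⟨⟨hpQ.1, hψD _ hpQ.1, c p, hpK, hs, hc0 p hpQ⟩,
        ⟨hpQ.2.1, hψD _ hpQ.2.1, c p, hpK, hs, hc1 p hpQ⟩⟩
    refine (hfin.image c).subset ?_
    rintro _ ⟨hK', p, hpQ, rfl⟩
    exact ⟨p, ⟨hpQ, hK'⟩, rfl⟩
  · intro W hW
    have hadd : Tendsto (fun p : FV X × FV X => p.1 + p.2) (𝓝 (0, 0)) (𝓝 (0 : FV X)) := by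
      have := (continuous_add (M := FV X)).tendsto (0, 0)
      simpa using this
    have hW' := hadd hW
    rw [mem_map, nhds_prod_eq, mem_prod_same_iff] at hW'
    obtain ⟨W₁, hW₁, hsub⟩ := hW'
    choose δ hδ hsm using fun x : X => small_smul hW₁ x
    -- an uncountable level
    obtain ⟨m, hm⟩ : ∃ m : ℕ, ¬ (R ∩ {a | 1 / ((m : ℝ) + 1) < δ (ψ a)}).Countable := by
      by_contra hcon
      push Not at hcon
      refine hR ((countable_iUnion hcon).mono fun a ha => ?_)
      obtain ⟨m, hm⟩ := exists_nat_one_div_lt (hδ (ψ a))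
      exact mem_iUnion.2 ⟨m, ha, hm⟩
    set R' := R ∩ {a | 1 / ((m : ℝ) + 1) < δ (ψ a)} with hR'
    obtain ⟨a, ha, b, hb, hab, hfl⟩ : ∃ a ∈ R', ∃ b ∈ R', a ≠ b ∧
        ⌊a * ((m : ℝ) + 1)⌋ = ⌊b * ((m : ℝ) + 1)⌋ := by
      by_contra hcon
      push Not at hcon
      have hinj : InjOn (fun a : ℝ => ⌊a * ((m : ℝ) + 1)⌋) R' := by
        intro a ha b hb hab
        by_contra hne
        exact hcon a ha b hb hne hab
      exact hm (Set.countable_of_injective_of_countable_image hinj (Set.to_countable _))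
    have hlt : |a - b| < 1 / ((m : ℝ) + 1) := by
      have h1 := Int.abs_sub_lt_one_of_floor_eq_floor hfl
      rw [← sub_mul, abs_mul, abs_of_pos (by positivity : (0 : ℝ) < (m : ℝ) + 1)] at h1
      rwa [lt_div_iff₀ (by positivity)]
    have habs : abs (min 1 (abs (a - b))) < 1 / ((m : ℝ) + 1) := by
      rw [abs_of_nonneg (le_min zero_le_one (abs_nonneg _))]
      exact lt_of_le_of_lt (min_le_right _ _) hlt
    refine ⟨c (a, b), hsub (a := (_, _)) ⟨hsm _ _ (habs.trans ha.2), hsm _ _ (habs.trans hb.2)⟩,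
      ⟨(a, b), ⟨ha.1, hb.1, hab⟩, rfl⟩⟩

theorem secondCountable_of_coherent (h : CompactlyCoherentSpace (sp (ι : X → FV X) 2)) :
    SecondCountableTopology X := by
  let _ := TopologicalSpace.metrizableSpaceMetric X
  refine Metric.secondCountable_of_almost_dense_set fun ε hε => ?_
  obtain ⟨S, hS⟩ := zorn_subset {S : Set X | S.Pairwise fun x y => ε < dist x y} (by
    intro c hc hchain
    refine ⟨⋃₀ c, ?_, fun s hs => subset_sUnion_of_mem hs⟩
    exact (pairwise_sUnion hchain.directedOn).2 fun s hs => hc hs)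
  have hSp : S.Pairwise fun x y => ε < dist x y := hS.prop
  refine ⟨S, countable_of_coherent h ?_, fun x => ?_⟩
  · intro x
    rw [eventually_nhdsWithin_iff]
    by_cases hex : ∃ s ∈ S, s ≠ x ∧ dist s x < ε / 2
    · obtain ⟨s, hs, hsx, hsd⟩ := hex
      filter_upwards [Metric.ball_mem_nhds x (dist_pos.2 hsx)] with y hy hyx hyS
      rw [Metric.mem_ball] at hy
      have hys : y ≠ s := by
        rintro rfl
        exact lt_irrefl _ hy
      have h1 := hSp hyS hs hys
      have h2 := dist_triangle y x s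
      rw [dist_comm x s] at h2
      linarith
    · push Not at hex
      filter_upwards [Metric.ball_mem_nhds x (half_pos hε)] with y hy hyx hyS
      exact absurd hy (not_lt.2 (hex y hyS hyx))
  · by_contra hcon
    push Not at hcon
    have hins : insert x S ∈ {S : Set X | S.Pairwise fun x y => ε < dist x y} := by
      refine Set.Pairwise.insert hSp fun y hy _ => ⟨hcon y hy, ?_⟩
      rw [dist_comm]
      exact hcon y hy
    have hxS : x ∈ S := hS.le_of_ge hins (subset_insert x S) (mem_insert x S)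
    have := hcon x hxS
    rw [dist_self] at this
    linarith

end Pool.Agent.Helper4FreeTVS
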