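import Pool.Agent.Helper4_FreeTVS.KVec
import Pool.Agent.Helper4_FreeTVS.Model

/-!
# For locally compact second countable metrizable `X` every level `sp_n(X)` is a `k`-space
-/

set_option autoImplicit false

universe u

open Topology Set

namespace Pool.Agent.Helper4FreeTVS

variable {X : Type u} [TopologicalSpace X]

/-- the vectors `t • x`, `|t| ≤ c`, `x ∈ K`, and `0` -/
def DD (c : ℝ) (K : Set X) : Set (FV X) :=
  insert 0 ((fun p : ℝ × X => p.1 • (ι p.2 : FV X)) '' (Icc (-c) c ×ˢ K))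

/-- sums of `n` elements of `DD c K` -/
def spK (n : ℕ) (c : ℝ) (K : Set X) : Set (FV X) :=
  (fun w : Fin n → FV X => ∑ j, w j) '' (Set.pi univ fun _ => DD c K)

theorem zero_mem_DD (c : ℝ) (K : Set X) : (0 : FV X) ∈ DD c K := mem_insert _ _

theorem isCompact_DD (c : ℝ) {K : Set X} (hK : IsCompact K) : IsCompact (DD c K) := by
  refine IsCompact.insert ?_ _
  refine (isCompact_Icc.prod hK).image ?_
  exact continuous_fst.smul (continuous_ι.comp continuous_snd)

theorem isCompact_spK (n : ℕ) (c : ℝ) {K : Set X} (hK : IsCompact K) :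
    IsCompact (spK n c K) := by
  refine (isCompact_univ_pi fun _ => isCompact_DD c hK).image ?_
  fun_prop

theorem DD_mono {c c' : ℝ} (h : c ≤ c') {K K' : Set X} (hK : K ⊆ K') : DD c K ⊆ DD c' K' := by
  refine insert_subset_insert (image_mono (prod_mono (Icc_subset_Icc (by linarith) h) hK))

theorem spK_mono_aux {c c' : ℝ} (h : c ≤ c') {K K' : Set X} (hK : K ⊆ K') (n : ℕ) :
    spK n c K ⊆ spK n c' K' :=
  image_mono (pi_mono fun _ _ => DD_mono h hK)

theorem spK_succ (n : ℕ) (c : ℝ) (K : Set X) : spK n c K ⊆ spK (n + 1) c K := by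
  rintro _ ⟨w, hw, rfl⟩
  refine ⟨Fin.cons 0 w, ?_, by simp [Fin.sum_univ_succ]⟩
  intro j _
  refine Fin.cases ?_ (fun j => ?_) j
  · exact zero_mem_DD c K
  · simpa using hw j (mem_univ _)

theorem spK_mono_left {n m : ℕ} (hnm : n ≤ m) (c : ℝ) (K : Set X) : spK n c K ⊆ spK m c K := by
  induction hnm with
  | refl => exact subset_rfl
  | step _ ih => exact ih.trans (spK_succ _ c K)

theorem spK_mono {n m : ℕ} (hnm : n ≤ m) {c c' : ℝ} (h : c ≤ c') {K K' : Set X} (hK : K ⊆ K') :
    spK n c K ⊆ spK m c' K' :=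
  (spK_mono_left hnm c K).trans (spK_mono_aux h hK m)

theorem add_mem_spK {n m : ℕ} {c : ℝ} {K : Set X} {v w : FV X} (hv : v ∈ spK n c K)
    (hw : w ∈ spK m c K) : v + w ∈ spK (n + m) c K := by
  obtain ⟨a, ha, rfl⟩ := hv
  obtain ⟨b, hb, rfl⟩ := hw
  refine ⟨Fin.append a b, ?_, by simp [Fin.sum_univ_add]⟩
  intro j _
  refine Fin.addCases (fun j => ?_) (fun j => ?_) j
  · simpa using ha j (mem_univ _)
  · simpa using hb j (mem_univ _)

theorem smul_mem_spK {n : ℕ} {c s t : ℝ} (hc : 0 ≤ c) (ht : t ∈ Icc (-s) s)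
    {K : Set X} {v : FV X} (hv : v ∈ spK n c K) : t • v ∈ spK n (s * c) K := by
  obtain ⟨a, ha, rfl⟩ := hv
  refine ⟨fun j => t • a j, ?_, by simp [Finset.smul_sum]⟩
  intro j _
  rcases ha j (mem_univ _) with h | ⟨⟨r, x⟩, ⟨hr, hx⟩, h⟩
  · simp only [h, smul_zero]
    exact zero_mem_DD _ K
  · refine Or.inr ⟨(t * r, x), ⟨?_, hx⟩, ?_⟩
    · simp only
      rw [mem_Icc, ← abs_le] at *
      rw [abs_mul]
      exact mul_le_mul ht hr (abs_nonneg _) ((abs_nonneg _).trans ht)
    · simp only at h ⊢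
      rw [← h, mul_smul]

open Classical in
/-- the algebraic projection onto the span of `K` -/
noncomputable def proj (K : Set X) : FV X →ₗ[ℝ] FV X := ext fun x => if x ∈ K then ι x else 0

theorem proj_mem_DD {c : ℝ} {K : Set X} {v : FV X} (hv : v ∈ DD c univ) : proj K v ∈ DD c K := by
  classical
  rcases hv with h | ⟨⟨r, x⟩, ⟨hr, hx⟩, h⟩
  · rw [h, map_zero]
    exact zero_mem_DD _ K
  · simp only at h hr
    rw [← h, map_smul, proj, ext_ι]
    split_ifs with hxK
    · exact Or.inr ⟨(r, x), ⟨hr, hxK⟩, rfl⟩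
    · rw [smul_zero]
      exact zero_mem_DD _ K

theorem proj_of_mem_DD {c : ℝ} {K : Set X} {v : FV X} (hv : v ∈ DD c K) : proj K v = v := by
  classical
  rcases hv with h | ⟨⟨r, x⟩, ⟨hr, hx⟩, h⟩
  · rw [h, map_zero]
  · simp only at h hr hx
    rw [← h, map_smul, proj, ext_ι, if_pos hx]

theorem spK_inter {n m : ℕ} {c c' : ℝ} {K : Set X} : spK m c univ ∩ spK n c' K ⊆ spK m c K := by
  rintro v ⟨⟨a, ha, rfl⟩, ⟨b, hb, hab⟩⟩
  refine ⟨fun j => proj K (a j), fun j _ => proj_mem_DD (ha j (mem_univ _)), ?_⟩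
  simp only at hab ⊢
  rw [← map_sum, ← hab, map_sum]
  exact Finset.sum_congr rfl fun j _ => proj_of_mem_DD (hb j (mem_univ _))

section coherent

variable [TopologicalSpace.MetrizableSpace X] (K : CompactExhaustion X)

/-- the `k_ω`-decomposition -/
def AA (n : ℕ) : Set (FV X) := spK n n (K n)

omit [TopologicalSpace.MetrizableSpace X] in
theorem AA_mono : Monotone (AA K) := fun n m hnm =>
  spK_mono hnm (by exact_mod_cast hnm) (K.subset hnm)

omit [TopologicalSpace.MetrizableSpace X] in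
theorem isCompact_AA (n : ℕ) : IsCompact (AA K n) := isCompact_spK _ _ (K.isCompact n)

omit [TopologicalSpace.MetrizableSpace X] in
theorem AA_add (n : ℕ) : ∃ m, ∀ x ∈ AA K n, ∀ y ∈ AA K n, x + y ∈ AA K m := by
  refine ⟨n + n, fun x hx y hy => ?_⟩
  refine spK_mono_aux ?_ (K.subset (Nat.le_add_right n n)) _ (add_mem_spK hx hy)
  push_cast
  linarith [Nat.cast_nonneg (α := ℝ) n]

omit [TopologicalSpace.MetrizableSpace X] in
theorem AA_smul (n : ℕ) : ∃ m, ∀ c ∈ Icc (-(n : ℝ)) n, ∀ y ∈ AA K n, c • y ∈ AA K m := by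
  refine ⟨n * n + n, fun c hc y hy => ?_⟩
  refine spK_mono (Nat.le_add_left n _) ?_ (K.subset (Nat.le_add_left n _))
    (smul_mem_spK (Nat.cast_nonneg n) hc hy)
  push_cast
  linarith [Nat.cast_nonneg (α := ℝ) n]

omit [TopologicalSpace.MetrizableSpace X] in
theorem ι_mem_AA {n : ℕ} (hn : 1 ≤ n) {x : X} (hx : x ∈ K n) : (ι x : FV X) ∈ AA K n := by
  refine spK_mono_left hn _ _ ⟨fun _ => ι x, fun j _ => Or.inr ⟨(1, x), ⟨?_, hx⟩, ?_⟩, by simp⟩
  · have : (1 : ℝ) ≤ n := by exact_mod_cast hn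
    exact ⟨by simp only; linarith, this⟩
  · simp

omit [TopologicalSpace.MetrizableSpace X] in
theorem AA_cover (v : FV X) : ∃ n, v ∈ AA K n := by
  refine Finsupp.induction_linear (motive := fun v : X →₀ ℝ => ∃ n, (v : FV X) ∈ AA K n) v ?_ ?_ ?_
  · exact ⟨0, fun _ => 0, by simp, by simp; rfl⟩
  · rintro v w ⟨n, hn⟩ ⟨m, hm⟩
    obtain ⟨k, hk⟩ := AA_add K (max n m)
    exact ⟨k, hk _ (AA_mono K (le_max_left _ _) hn) _ (AA_mono K (le_max_right _ _) hm)⟩
  · intro x c
    obtain ⟨n, hn⟩ := K.exists_mem x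
    obtain ⟨k, hk⟩ := exists_nat_ge |c|
    obtain ⟨m, hm⟩ := AA_smul K (max (max n k) 1)
    refine ⟨m, ?_⟩
    have h1 : (ι x : FV X) ∈ AA K (max (max n k) 1) :=
      ι_mem_AA K (le_max_right _ _) (K.subset ((le_max_left _ _).trans (le_max_left _ _)) hn)
    have h2 : c ∈ Icc (-((max (max n k) 1 : ℕ) : ℝ)) ((max (max n k) 1 : ℕ) : ℝ) := by
      rw [mem_Icc, ← abs_le]
      refine hk.trans ?_
      exact_mod_cast (le_max_right n k).trans (le_max_left _ _)
    have h3 : c • (ι x : FV X) = (Finsupp.single x c : X →₀ ℝ) := by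
      refine tf.injective ?_
      rw [map_smul, tf_ι]
      show c • Finsupp.single x (1 : ℝ) = Finsupp.single x c
      simp
    have := hm c h2 _ h1
    rw [h3] at this
    exact this

omit [TopologicalSpace.MetrizableSpace X] in
theorem continuous_toKE_ι : Continuous fun x : X => toKE (AA K) (ι x) := by
  rw [continuous_iff_continuousAt]
  intro x
  obtain ⟨n, hn⟩ := K.exists_mem x
  have hn' : x ∈ interior (K (n + 1)) := K.subset_interior_succ n hn
  have h1 : ContinuousOn (fun x : X => toKE (AA K) (ι x)) (K (n + 1)) :=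
    (continuousOn_toKE (AA K) (n + 1)).comp continuous_ι.continuousOn fun y hy =>
      ι_mem_AA K (by omega) hy
  exact h1.continuousAt (mem_interior_iff_mem_nhds.1 hn')

/-- The topology of `V(X)` is coherent with the sets `AA K n`. -/
theorem isOpen_of_relOpen_AA (U : Set (FV X)) (hU : RelOpen (AA K) U) : IsOpen U := by
  have h1 : @IsTopologicalAddGroup (FV X) (kTop (instTop X) (AA K)) _ :=
    isTopologicalAddGroup_KE (AA K) (isCompact_AA K) (AA_mono K) (AA_cover K) (AA_add K)
      (AA_smul K)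
  have h2 : @ContinuousSMul ℝ (FV X) _ _ (kTop (instTop X) (AA K)) :=
    continuousSMul_KE (AA K) (isCompact_AA K) (AA_mono K) (AA_cover K)
      (AA_smul K)
  have h3 : @Continuous X (FV X) _ (kTop (instTop X) (AA K)) ι := continuous_toKE_ι K
  have h4 : instTop X ≤ kTop (instTop X) (AA K) := sInf_le ⟨h1, h2, h3⟩
  exact h4 U hU

theorem isClosed_of_inter_AA (C : Set (FV X)) (hC : ∀ n, IsClosed (C ∩ AA K n)) :
    IsClosed C := by
  rw [← isOpen_compl_iff]
  refine isOpen_of_relOpen_AA K _ fun n => ⟨(C ∩ AA K n)ᶜ, (hC n).isOpen_compl, ?_⟩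
  ext x
  simp only [mem_inter_iff, mem_compl_iff, not_and]
  tauto

include K in
theorem coherent_spK (m : ℕ) : CompactlyCoherentSpace (spK m m (univ : Set X)) := by
  refine CompactlyCoherentSpace.of_isClosed fun C hC => ?_
  have key : IsClosed (Subtype.val '' C) := by
    refine isClosed_of_inter_AA K _ fun n => ?_
    set B : Set (spK m m (univ : Set X)) := Subtype.val ⁻¹' (spK m m (K n)) with hB
    have hBc : IsCompact B := by
      rw [Subtype.isCompact_iff, hB, Subtype.image_preimage_coe,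
        inter_eq_right.2 (spK_mono_aux le_rfl (subset_univ _) m)]
      exact isCompact_spK _ _ (K.isCompact n)
    have hCB : IsCompact (C ∩ B) := by
      have h1 := hC B hBc
      have : CompactSpace B := isCompact_iff_compactSpace.1 hBc
      have h2 : IsCompact (Subtype.val '' ((Subtype.val : B → _) ⁻¹' C)) :=
        h1.isCompact.image continuous_subtype_val
      rwa [Subtype.image_preimage_coe, inter_comm] at h2
    have hval : IsCompact (Subtype.val '' (C ∩ B)) := hCB.image continuous_subtype_val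
    have heq : Subtype.val '' C ∩ AA K n = Subtype.val '' (C ∩ B) ∩ AA K n := by
      ext v
      constructor
      · rintro ⟨⟨c, hc, rfl⟩, hv⟩
        exact ⟨⟨c, ⟨hc, spK_inter ⟨c.2, hv⟩⟩, rfl⟩, hv⟩
      · rintro ⟨⟨c, hc, rfl⟩, hv⟩
        exact ⟨⟨c, hc.1, rfl⟩, hv⟩
    rw [heq]
    exact hval.isClosed.inter (isCompact_AA K n).isClosed
  have : C = Subtype.val ⁻¹' (Subtype.val '' C) :=
    (preimage_image_eq _ Subtype.val_injective).symm
  rw [this]
  exact key.preimage continuous_subtype_val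

end coherent

theorem sp_eq_spK [Nonempty X] (m : ℕ) : sp (ι : X → FV X) m = spK m m univ := by
  ext v
  constructor
  · rintro ⟨c, x, hc, rfl⟩
    exact ⟨fun j => c j • ι (x j), fun j _ => Or.inr ⟨(c j, x j), ⟨hc j, mem_univ _⟩, rfl⟩, rfl⟩
  · rintro ⟨w, hw, rfl⟩
    have : ∀ j, ∃ p : ℝ × X, p.1 ∈ Icc (-(m : ℝ)) m ∧ w j = p.1 • ι p.2 := by
      intro j
      rcases hw j (mem_univ _) with h | ⟨⟨r, x⟩, ⟨hr, hx⟩, h⟩
      · exact ⟨(0, Classical.arbitrary X), by simp, by simp [h]⟩
      · exact ⟨(r, x), hr, h.symm⟩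
    choose p hp hwp using this
    exact ⟨fun j => (p j).1, fun j => (p j).2, hp, Finset.sum_congr rfl fun j _ => hwp j⟩

/-- If `X` is metrizable, locally compact and second countable then all levels are `k`-spaces. -/
theorem coherent_sp [TopologicalSpace.MetrizableSpace X] [LocallyCompactSpace X]
    [SecondCountableTopology X] (m : ℕ) : CompactlyCoherentSpace (sp (ι : X → FV X) m) := by
  rcases isEmpty_or_nonempty X with h | h
  · have : Subsingleton (FV X) := inferInstanceAs (Subsingleton (X →₀ ℝ))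
    infer_instance
  · rw [sp_eq_spK]
    exact coherent_spK (default : CompactExhaustion X) m

end Pool.Agent.Helper4FreeTVS
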